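import Pool.Agent.W206.MS.Final
import Pool.Agent.Q45.ML.Val
import Pool.Agent.Q45.ML.Lat

/-!
# The monoid Stark conjecture and regularised products of indices of ideals

`K` real quadratic, `O` an order, `m` a modulus, `a` in a class `A` of the ray class monoid, `R` the class of
`ρ O`. The number `exp (-Z'(0, A))`, the conjectural unit, is the limit with error `O(1/T)` of

  `∏_{b ∈ A} [O : b] ^ w_T(b) / ∏_{b ∈ R A} [O : b] ^ w_T(b)`,  `w_T(b) = e^{iγ log [O:b]/T} / Γ(1 + log [O:b]/T)`,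

and the whole conjecture (i)-(iv) for `(O, m)` is equivalent to the existence, along one sequence `T_i → ∞`, of
families of units with (ii), (iii), (iv) which come arbitrarily near to these products.
-/

set_option autoImplicit false

namespace Pool.Agent.Results.MP_6bf7a3_nt.RegularizedIdealProducts

open Filter Topology Asymptotics Pool.Agent.Q45.ML Pool.Agent.W206.MS Pool.Agent.W189.ML
  Pool.Agent.W189.LC Pool.Agent.W187.UR

/-- the number of the ideals of index `n` in the class of `a` minus the number of those in the class of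
`ρ a` -/
noncomputable def coeff {K : Type} [Field K] (O : Subalgebra ℤ K) (m : Submodule ℤ K) (σ : K →+* ℝ) (ρ : K)
    (a : Submodule ℤ K) (n : ℕ) : ℂ :=
  (cnt O m σ a n : ℂ) - (cnt O m σ (Submodule.span ℤ {ρ} * a) n : ℂ)

/-- `coeff(n) log n e^{iγ log n/T} / Γ(1 + log n/T)` -/
noncomputable def term {K : Type} [Field K] (O : Subalgebra ℤ K) (m : Submodule ℤ K) (σ : K →+* ℝ) (ρ : K)
    (γ T : ℝ) (a : Submodule ℤ K) (n : ℕ) : ℂ :=
  coeff O m σ ρ a n * Real.log n *
    (Complex.exp ((γ * (Real.log n / T) : ℝ) * Complex.I) / (Real.Gamma (1 + Real.log n / T) : ℂ))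

/-- the regularised product `∏_n n ^ (coeff(n) w_T(n))` -/
noncomputable def product {K : Type} [Field K] (O : Subalgebra ℤ K) (m : Submodule ℤ K) (σ : K →+* ℝ) (ρ : K)
    (γ T : ℝ) (a : Submodule ℤ K) : ℂ :=
  Complex.exp (∑' n, term O m σ ρ γ T a n)

/-- all conditions of the conjecture but the first: `ε` is a family of units of `H`, depending only on the
classes, with (ii), (iii) and (iv) -/
def Candidate {K : Type} [Field K] [Algebra K ℝ] (σ : K →+* ℝ) (O : Subalgebra ℤ K) (m : Submodule ℤ K)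
    (H : IntermediateField K ℝ) (Art : Submodule ℤ K → (H ≃ₐ[K] H)) (ε : Submodule ℤ K → H) : Prop :=
  ∀ a, InMonoid O m a →
    (∀ b, InMonoid O m b → Rel O m σ b a → ε b = ε a) ∧
    (IsIntegral ℤ (ε a : ℝ) ∧ IsIntegral ℤ (ε a : ℝ)⁻¹) ∧
    CondII O m H Art ε a ∧ CondIII σ H (ε a) ∧ CondIV H (ε a)

section sums

variable {K : Type} [Field K] {O : Subalgebra ℤ K} {m : Submodule ℤ K} {σ : K →+* ℝ} {ρ : K}
  {a : Submodule ℤ K} {Z : ℂ → ℂ}

theorem summ_two (hZ : ∀ s : ℂ, 1 < s.re → LSeriesHasSum (coeff O m σ ρ a) s (Z s)) :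
    LSeries.abscissaOfAbsConv (coeff O m σ ρ a) ≤ 1 := by
  refine LSeries.abscissaOfAbsConv_le_of_forall_lt_LSeriesSummable fun y hy => ?_
  exact (hZ y (by simpa using hy)).LSeriesSummable

theorem logmul_norm {f : ℕ → ℂ} {s : ℂ} (n : ℕ) :
    ‖LSeries.term (LSeries.logMul f) s n‖ =
      ‖f n * Real.log n‖ * Real.exp (-(s.re * Real.log n)) := by
  rcases Nat.eq_zero_or_pos n with rfl | hn
  · rw [LSeries.term_zero, Nat.cast_zero, Real.log_zero, Complex.ofReal_zero, mul_zero, norm_zero, zero_mul]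
  · rw [LSeries.term_of_ne_zero hn.ne']
    have h1 : (0 : ℝ) < n := by exact_mod_cast hn
    rw [LSeries.logMul, norm_div, ← Complex.natCast_log, mul_comm (f n)]
    rw [Complex.norm_natCast_cpow_of_pos hn, Real.rpow_def_of_pos h1, div_eq_mul_inv, ← Real.exp_neg]
    congr 2
    ring

theorem cont (hd : Differentiable ℂ Z)
    (hZ : ∀ s : ℂ, 1 < s.re → LSeriesHasSum (coeff O m σ ρ a) s (Z s)) :
    ContC (fun n : ℕ => Real.log n) (fun n => coeff O m σ ρ a n * Real.log n) 0 1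
      (fun s => Complex.exp (-deriv Z s)) := by
  have hab := summ_two hZ
  have hlt : ∀ s : ℂ, 1 < s.re → LSeries.abscissaOfAbsConv (coeff O m σ ρ a) < s.re := fun s hs =>
    lt_of_le_of_lt hab (by exact_mod_cast hs)
  have hder : Differentiable ℂ (deriv Z) := hd.deriv
  refine ⟨zero_lt_one, fun n => Real.log_natCast_nonneg n, fun s hs => ?_, fun x _ _ => ?_, fun s hs => ?_⟩
  · have h1 := (LSeriesSummable_logMul_of_lt_re (hlt (s : ℂ) (by simpa using hs))).norm
    refine h1.congr fun n => ?_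
    rw [logmul_norm]
    simp
  · have h1 : AnalyticAt ℂ (fun s => Complex.exp (-deriv Z s)) (x : ℂ) := by
      have := hder.analyticAt (x : ℂ)
      fun_prop
    exact h1.meromorphicAt
  · have h1 : Z =ᶠ[𝓝 s] LSeries (coeff O m σ ρ a) := by
      filter_upwards [(isOpen_lt continuous_const Complex.continuous_re).mem_nhds hs] with z hz
      exact (hZ z hz).LSeries_eq.symm
    show Complex.exp (-deriv Z s) = _
    rw [h1.deriv_eq, LSeries_deriv (hlt s hs), neg_neg]
    congr 1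
    unfold LSeries
    refine tsum_congr fun n => ?_
    rcases Nat.eq_zero_or_pos n with rfl | hn
    · simp
    · rw [LSeries.term_of_ne_zero hn.ne', LSeries.logMul, div_eq_mul_inv, ← Complex.cpow_neg,
        Complex.cpow_def_of_ne_zero (by exact_mod_cast hn.ne'), Complex.natCast_log]
      rw [mul_comm (Complex.log _) (coeff O m σ ρ a n)]
      congr 2
      ring

theorem summable_term (hd : Differentiable ℂ Z)
    (hZ : ∀ s : ℂ, 1 < s.re → LSeriesHasSum (coeff O m σ ρ a) s (Z s)) (γ : ℝ) {T : ℝ} (hT : 0 < T) :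
    Summable fun n => ‖term O m σ ρ γ T a n‖ := by
  have h1 := (cont hd hZ).sum 2 (by norm_num)
  refine Summable.of_nonneg_of_le (fun _ => norm_nonneg _) (fun n => ?_)
    (h1.mul_left (Real.exp (Real.exp (2 * T)) + 1))
  have h0 : 0 ≤ Real.log n := Real.log_natCast_nonneg n
  have h2 : om (Real.log n / T) ≤
      (Real.exp (Real.exp (2 * T)) + 1) * Real.exp (-(2 * T * (Real.log n / T))) :=
    om_le (by positivity) (div_nonneg h0 hT.le)
  have h3 : 2 * T * (Real.log n / T) = 2 * Real.log n := by field_simp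
  rw [h3] at h2
  have h5 : 0 < 1 + Real.log n / T := by
    have := div_nonneg h0 hT.le
    linarith
  have h6 : ‖term O m σ ρ γ T a n‖ = ‖coeff O m σ ρ a n * Real.log n‖ * om (Real.log n / T) := by
    unfold term om
    rw [norm_mul, norm_div, Complex.norm_exp_ofReal_mul_I, Complex.norm_real,
      Real.norm_eq_abs, abs_of_pos (Real.Gamma_pos_of_pos h5), one_div]
  rw [h6]
  calc _ ≤ ‖coeff O m σ ρ a n * Real.log n‖ * ((Real.exp (Real.exp (2 * T)) + 1) *
        Real.exp (-(2 * Real.log n))) := mul_le_mul_of_nonneg_left h2 (norm_nonneg _)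
    _ = _ := by ring

theorem rate (hd : Differentiable ℂ Z)
    (hZ : ∀ s : ℂ, 1 < s.re → LSeriesHasSum (coeff O m σ ρ a) s (Z s)) {γ : ℝ} (hγ : Real.pi / 2 < γ) :
    (fun T : ℝ => product O m σ ρ γ T a - Complex.exp (-deriv Z 0)) =O[atTop] (fun T : ℝ => 1 / T) := by
  have hC := cont hd hZ
  obtain ⟨n, r, h1, h2, h3⟩ := lawC hC hγ
  have hA : AnalyticAt ℂ (fun s => Complex.exp (-deriv Z s)) ((0 : ℝ) : ℂ) := by
    have := hd.deriv.analyticAt ((0 : ℝ) : ℂ)
    fun_prop
  have h4 := value_rate hA h1 h2 h3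
  rw [Complex.ofReal_zero] at h4
  refine h4.congr (fun T => ?_) fun _ => rfl
  congr 1
  unfold product rotC
  congr 1
  refine tsum_congr fun n => ?_
  unfold term
  simp

end sums

section independence

variable {K : Type} [Field K] {O : Subalgebra ℤ K} {m : Submodule ℤ K} {σ : K →+* ℝ}
  {a : Submodule ℤ K}

theorem req_rho (hm : Md O m) {ρ ρ' : K} (h1 : ρ + 1 ∈ m) (h2 : 0 < σ ρ) (h1' : ρ' + 1 ∈ m)
    (h2' : 0 < σ ρ') (ha : (a : Set K) ⊆ Loc O m (OL O)) : REq O m σ (Pool.Agent.W206.MS.sm ρ a) (Pool.Agent.W206.MS.sm ρ' a) := by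
  have h0 := ne_zero_of_pos h2'
  refine ⟨ρ * ρ'⁻¹, by rw [map_mul, map_inv₀]; positivity, ?_, ?_⟩
  · intro z hz
    obtain ⟨w, hw, rfl⟩ := mem_sm.1 hz
    have : (ρ * ρ'⁻¹ - 1) * (ρ' * w) = w * ((ρ + 1) - (ρ' + 1)) := by
      field_simp
      ring
    rw [this]
    exact loc_mul hm hm.mul (ha hw) (loc_of_mem hm (m.sub_mem h1 h1'))
  · rw [sm_sm, mul_assoc, inv_mul_cancel₀ h0, mul_one]

theorem inMonoid_rho (hm : Md O m) {ρ : K} (h1 : ρ + 1 ∈ m) (h2 : 0 < σ ρ) (h3 : ρ ∈ O)
    (ha : InMonoid O m a) : InMonoid O m (Pool.Agent.W206.MS.sm ρ a) := by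
  have : Pool.Agent.W206.MS.sm ρ a = Pool.Agent.W206.MS.sm ρ (OL O) * a := by rw [sm_mul, ha.1.stable]
  rw [this]
  have hg := good_rho (b := m) hm.mul h1 h2 h3
  exact (inMonoid_of_le hm hg.inv hg.le).mul hm ha

theorem coeff_rho (hm : Md O m) (hfin : ∀ x ∈ O, ∃ k, 0 < k ∧ x ^ (2 * k) - x ^ k ∈ m) {ρ ρ' : K}
    (h1 : ρ + 1 ∈ m) (h2 : 0 < σ ρ) (h3 : ρ ∈ O) (h1' : ρ' + 1 ∈ m) (h2' : 0 < σ ρ') (h3' : ρ' ∈ O)
    (ha : InMonoid O m a) (n : ℕ) : coeff O m σ ρ a n = coeff O m σ ρ' a n := by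
  unfold coeff
  congr 2
  have e1 := cnt_eq (σ := σ) hm hfin (inMonoid_rho (σ := σ) hm h1 h2 h3 ha) n
  have e2 := cnt_eq (σ := σ) hm hfin (inMonoid_rho (σ := σ) hm h1' h2' h3' ha) n
  unfold Pool.Agent.W206.MS.sm at e1 e2
  rw [e1, e2]
  congr 1
  exact CS_congr hm (req_rho hm h1 h2 h1' h2' ha.2) n

/-- two continuations have the same derivative at `0` -/
theorem deriv_unique (hm : Md O m) (hfin : ∀ x ∈ O, ∃ k, 0 < k ∧ x ^ (2 * k) - x ^ k ∈ m) {ρ : K}
    (h1 : ρ + 1 ∈ m) (h2 : 0 < σ ρ) (h3 : ρ ∈ O) (ha : InMonoid O m a) {Z F : ℂ → ℂ}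
    (hd : Differentiable ℂ Z)
    (hZ : ∀ s : ℂ, 1 < s.re → LSeriesHasSum (coeff O m σ ρ a) s (Z s)) (hF : IsZ O m σ a F) :
    deriv F 0 = deriv Z 0 := by
  obtain ⟨⟨ρ', k3, k1, k2, hs⟩, hFd⟩ := hF
  have hEq : ∀ s : ℂ, 1 < s.re → F s = Z s := by
    intro s hs1
    have e1 := hs s hs1
    have e2 := hZ s hs1
    have e3 : coeff O m σ ρ a = fun n => (cnt O m σ a n : ℂ) -
        (cnt O m σ (Submodule.span ℤ {ρ'} * a) n : ℂ) := by
      funext n
      exact coeff_rho hm hfin h1 h2 h3 k1 k2 k3 ha n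
    rw [e3] at e2
    exact HasSum.unique e1 e2
  have han : AnalyticOnNhd ℂ F {1}ᶜ := hFd.analyticOnNhd isOpen_compl_singleton
  have hcan : AnalyticOnNhd ℂ Z {1}ᶜ := fun z _ => hd.analyticAt z
  have heq : Set.EqOn F Z {1}ᶜ :=
    han.eqOn_of_preconnected_of_eventuallyEq hcan
      (isConnected_compl_singleton_of_one_lt_rank (by simp) 1).isPreconnected
      (by norm_num : (2 : ℂ) ∈ _)
      (Filter.eventuallyEq_of_mem
        ((isOpen_lt continuous_const Complex.continuous_re).mem_nhds (by norm_num)) hEq)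
  have h0 : F =ᶠ[nhds 0] Z :=
    Filter.eventuallyEq_of_mem (isOpen_compl_singleton.mem_nhds (by norm_num)) heq
  exact h0.deriv_eq

end independence

section finiteness

variable {K : Type} [Field K] [NumberField K] [Algebra K ℝ] {σ : K →+* ℝ}

/-- the algebraic integers of `H` with (iii) and bounded conjugates over `K` -/
theorem finite_bounded (hK : Module.finrank ℚ K = 2) (hσ : σ ≠ algebraMap K ℝ)
    (H : IntermediateField K ℝ) [FiniteDimensional K H] [IsGalois K H] (B : ℝ) :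
    {x : H | IsIntegral ℤ (x : ℝ) ∧ CondIII σ H x ∧ ∀ g : H ≃ₐ[K] H, |((g x : H) : ℝ)| ≤ B}.Finite := by
  classical
  have : FiniteDimensional ℚ H := FiniteDimensional.trans ℚ K H
  have : NumberField H := ⟨⟩
  -- the two embeddings of `K`
  set ι : K →+* ℂ := Complex.ofRealHom.comp (algebraMap K ℝ) with hι
  set ι' : K →+* ℂ := Complex.ofRealHom.comp σ with hι'
  have hne : ι ≠ ι' := by
    intro h
    apply hσ
    ext x
    have := RingHom.congr_fun h x
    simp only [hι, hι', RingHom.comp_apply, Complex.ofRealHom_eq_coe, Complex.ofReal_inj] at this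
    exact this.symm
  have hcard : Fintype.card (K →+* ℂ) = 2 := by
    rw [NumberField.Embeddings.card, hK]
  have htwo : ∀ τ : K →+* ℂ, τ = ι ∨ τ = ι' := by
    intro τ
    by_contra hcon
    push Not at hcon
    have h1 : ({τ, ι, ι'} : Finset (K →+* ℂ)).card ≤ 2 := by
      rw [← hcard]
      exact Finset.card_le_univ _
    rw [Finset.card_insert_of_notMem, Finset.card_pair hne] at h1
    · omega
    · simp [hcon.1, hcon.2]
  refine (NumberField.Embeddings.finite_of_norm_le H ℂ (max 1 B)).subset ?_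
  rintro x ⟨h1, h2, h3⟩
  refine ⟨(isIntegral_algebraMap_iff (algebraMap H ℝ).injective).1 h1, fun τ => ?_⟩
  rcases htwo (τ.comp (algebraMap K H)) with h | h
  · have h' : (Complex.ofRealHom.comp (algebraMap H ℝ)).comp (algebraMap K H) =
        τ.comp (algebraMap K H) := by
      rw [h, hι, RingHom.comp_assoc]
      rfl
    obtain ⟨g, hg⟩ := NumberField.ComplexEmbedding.exists_comp_symm_eq_of_comp_eq (k := K) _ τ h'
    rw [← hg]
    refine le_trans (le_of_eq ?_) ((h3 g.symm).trans (le_max_right _ _))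
    show ‖((((g.symm x : H) : ℝ)) : ℂ)‖ = _
    rw [Complex.norm_real, Real.norm_eq_abs]
  · rw [h2 τ fun y => by
      have := RingHom.congr_fun h y
      simpa [hι'] using this]
    exact le_max_left _ _

end finiteness

theorem result (K : Type) [Field K] [NumberField K] [Algebra K ℝ]
    (hK : Module.finrank ℚ K = 2) (σ : K →+* ℝ) (hσ : σ ≠ algebraMap K ℝ)
    (O : Subalgebra ℤ K) (m : Submodule ℤ K) (hO : IsOrder O) (hm : IsModulus O m)
    (ρ : K) (hρO : ρ ∈ O) (hρm : ρ + 1 ∈ m) (hρ : 0 < σ ρ)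
    -- the differenced zeta functions are entire
    (Z : Submodule ℤ K → ℂ → ℂ) (hd : ∀ a, InMonoid O m a → Differentiable ℂ (Z a))
    (hZ : ∀ a, InMonoid O m a → ∀ s : ℂ, 1 < s.re → LSeriesHasSum (coeff O m σ ρ a) s (Z a s))
    {γ : ℝ} (hγ : Real.pi / 2 < γ) :
    (∀ a, InMonoid O m a → (∀ T : ℝ, 0 < T → Summable fun n => ‖term O m σ ρ γ T a n‖) ∧
      (fun T : ℝ => product O m σ ρ γ T a - Complex.exp (-deriv (Z a) 0)) =O[atTop]
        (fun T : ℝ => 1 / T)) ∧
    List.TFAE [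
      MonoidStark σ O m,
      ∃ (H : IntermediateField K ℝ) (Art : Submodule ℤ K → (H ≃ₐ[K] H)), IsRayClassField σ O m H Art ∧
        ∃ ε : Submodule ℤ K → H, Candidate σ O m H Art ε ∧ ∀ a, InMonoid O m a →
          (fun T : ℝ => product O m σ ρ γ T a - ((ε a : ℝ) : ℂ)) =O[atTop] (fun T : ℝ => 1 / T),
      ∃ (H : IntermediateField K ℝ) (Art : Submodule ℤ K → (H ≃ₐ[K] H)), IsRayClassField σ O m H Art ∧
        ∃ t : ℕ → ℝ, Tendsto t atTop atTop ∧ ∃ ε : ℕ → Submodule ℤ K → H,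
          (∀ i, Candidate σ O m H Art (ε i)) ∧ ∀ a, InMonoid O m a →
            Tendsto (fun i => product O m σ ρ γ (t i) a - ((ε i a : ℝ) : ℂ)) atTop (𝓝 0)] := by
  have P := mkPair hO hO le_rfl hm
  have hMd := P.mM
  have hfin := P.fin_m
  have hrate : ∀ a, InMonoid O m a → (fun T : ℝ => product O m σ ρ γ T a -
      Complex.exp (-deriv (Z a) 0)) =O[atTop] (fun T : ℝ => 1 / T) := fun a ha =>
    rate (hd a ha) (hZ a ha) hγ
  have hlim : ∀ a, InMonoid O m a → Tendsto (fun T : ℝ => product O m σ ρ γ T a) atTop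
      (𝓝 (Complex.exp (-deriv (Z a) 0))) := fun a ha => tendsto_of_rate (hrate a ha)
  have hIsZ : ∀ a, InMonoid O m a → IsZ O m σ a (Z a) := fun a ha =>
    ⟨⟨ρ, hρO, hρm, hρ, hZ a ha⟩, (hd a ha).differentiableOn⟩
  refine ⟨fun a ha => ⟨fun T hT => summable_term (hd a ha) (hZ a ha) γ hT, hrate a ha⟩, ?_⟩
  tfae_have 1 → 2 := by
    rintro ⟨H, Art, hH, ε, hε⟩
    refine ⟨H, Art, hH, ε, fun a ha => ?_, fun a ha => ?_⟩
    · obtain ⟨h1, h2, h3, h4, h5, h6⟩ := hε a ha
      exact ⟨h1, h2, h4, h5, h6⟩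
    · obtain ⟨h1, h2, ⟨F, hF, h3⟩, h4, h5, h6⟩ := hε a ha
      rw [h3, deriv_unique hMd hfin hρm hρ hρO ha (hd a ha) (hZ a ha) hF]
      exact hrate a ha
  tfae_have 2 → 3 := by
    rintro ⟨H, Art, hH, ε, hε, h⟩
    refine ⟨H, Art, hH, fun n => n, tendsto_natCast_atTop_atTop, fun _ => ε, fun _ => hε, fun a ha => ?_⟩
    have h1 := (h a ha).trans_tendsto (tendsto_const_nhds.div_atTop tendsto_id)
    exact h1.comp tendsto_natCast_atTop_atTop
  tfae_have 3 → 1 := by
    rintro ⟨H, Art, hH, t, ht, ε, hε, h⟩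
    obtain ⟨⟨hfd, hab⟩, ⟨hmul, hsurj, hker⟩, hfrob⟩ := hH
    have hgal : IsGalois K H := hab.toIsGalois
    have : Finite (H ≃ₐ[K] H) := inferInstance
    -- convergence of the units
    have hreal : ∀ a, InMonoid O m a → Complex.exp (-deriv (Z a) 0) =
        ((Real.exp (-(deriv (Z a) 0).re) : ℝ) : ℂ) := by
      intro a ha
      have h1 := (hIsZ a ha).deriv_real
      have h2 : deriv (Z a) 0 = ((deriv (Z a) 0).re : ℂ) := by
        apply Complex.ext
        · simp
        · simpa using h1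
      rw [Complex.ofReal_exp]
      congr 1
      rw [h2]
      simp
    have hconv : ∀ a, InMonoid O m a → Tendsto (fun i => (ε i a : ℝ)) atTop
        (𝓝 (Real.exp (-(deriv (Z a) 0).re))) := by
      intro a ha
      have h1 := ((hlim a ha).comp ht).sub (h a ha)
      rw [hreal a ha, sub_zero] at h1
      have h2 : Tendsto (fun i => (((ε i a : ℝ) : ℂ))) atTop
          (𝓝 ((Real.exp (-(deriv (Z a) 0).re) : ℝ) : ℂ)) := by
        refine h1.congr fun i => ?_
        simp
      have h3 := (Complex.continuous_re.tendsto _).comp h2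
      rw [Complex.ofReal_re] at h3
      exact h3
    choose bg hbg hbg' using hsurj
    have hev : ∀ a, InMonoid O m a → ∀ᶠ i in atTop, (ε i a : ℝ) = Real.exp (-(deriv (Z a) 0).re) := by
      intro a ha
      have hba : ∀ g, InMonoid O m (bg g * a) := fun g => ((hbg g).inMonoid hMd).mul hMd ha
      obtain ⟨B, hB⟩ : ∃ B : ℝ, ∀ g : H ≃ₐ[K] H, Real.exp (-(deriv (Z (bg g * a)) 0).re) < B := by
        obtain ⟨B, hB⟩ := (Set.finite_range fun g : H ≃ₐ[K] H =>
          Real.exp (-(deriv (Z (bg g * a)) 0).re)).bddAbove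
        exact ⟨B + 1, fun g => lt_of_le_of_lt (hB ⟨g, rfl⟩) (lt_add_one B)⟩
      have hev1 : ∀ᶠ i in atTop, ∀ g : H ≃ₐ[K] H, |((ε i (bg g * a) : H) : ℝ)| < B := by
        refine Filter.eventually_all.2 fun g => ?_
        have h1 := (hconv _ (hba g)).abs
        rw [abs_of_pos (Real.exp_pos _)] at h1
        exact h1.eventually_lt_const (hB g)
      set C := {x : H | IsIntegral ℤ (x : ℝ) ∧ CondIII σ H x ∧
        ∀ g : H ≃ₐ[K] H, |((g x : H) : ℝ)| ≤ B} with hCdef
      have hC : C.Finite := finite_bounded hK hσ H B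
      have hmem : ∀ᶠ i in atTop, ε i a ∈ C := by
        filter_upwards [hev1] with i hi
        obtain ⟨h1, h2, h3, h4, h5⟩ := hε i a ha
        refine ⟨h2.1, h4, fun g => ?_⟩
        have h6 := h3 (bg g) (hbg g)
        rw [hbg' g] at h6
        rw [h6]
        exact (hi g).le
      have hC' : ((fun x : H => (x : ℝ)) '' C \ {Real.exp (-(deriv (Z a) 0).re)}).Finite :=
        (hC.image _).subset Set.sdiff_subset
      have hopen := hC'.isClosed.isOpen_compl.mem_nhds
        (show Real.exp (-(deriv (Z a) 0).re) ∈ _ from fun h' => h'.2 rfl)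
      filter_upwards [hmem, hconv a ha hopen] with i h1 h2
      by_contra hne
      exact h2 ⟨⟨_, h1, rfl⟩, hne⟩
    classical
    choose! N hN using fun a ha => Filter.eventually_atTop.1 (hev a ha)
    refine ⟨H, Art, ⟨⟨hfd, hab⟩, ⟨hmul, fun g => ⟨bg g, hbg g, hbg' g⟩, hker⟩, hfrob⟩,
      fun a => ε (N a) a, fun a ha => ?_⟩
    have key : ∀ a, InMonoid O m a → ∀ i, N a ≤ i → ε i a = ε (N a) a := by
      intro a ha i hi
      apply Subtype.ext
      rw [hN a ha i hi, hN a ha (N a) le_rfl]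
    have hC := hε (N a) a ha
    refine ⟨fun b hb hba => ?_, hC.2.1, ⟨Z a, hIsZ a ha, ?_⟩, fun b hb => ?_, hC.2.2.2.1, hC.2.2.2.2⟩
    · set i := max (N a) (N b)
      show ε (N b) b = ε (N a) a
      rw [← key a ha i (le_max_left _ _), ← key b hb i (le_max_right _ _)]
      exact (hε i a ha).1 b hb hba
    · rw [hreal a ha]
      exact congrArg _ (hN a ha (N a) le_rfl)
    · have hbam : InMonoid O m (b * a) := (hb.inMonoid hMd).mul hMd ha
      set i := max (N a) (N (b * a))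
      show Art b (ε (N a) a) = ε (N (b * a)) (b * a)
      rw [← key a ha i (le_max_left _ _), ← key _ hbam i (le_max_right _ _)]
      exact (hε i a ha).2.2.1 b hb
  tfae_finish

end Pool.Agent.Results.MP_6bf7a3_nt.RegularizedIdealProducts
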